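import Mathlib

/-! Minors, joins and stars. -/

namespace Pool.Agent.W_MP_2d9473_co

/-- `f` is a model of `H` in `G`: the branch sets `f w` are connected (hence nonempty), pairwise
disjoint, and adjacent vertices of `H` have branch sets joined by an edge of `G`. -/
def IsModel {W V : Type} (H : SimpleGraph W) (G : SimpleGraph V) (f : W → Set V) : Prop :=
  (∀ w, (G.induce (f w)).Connected) ∧ (∀ w w', w ≠ w' → Disjoint (f w) (f w')) ∧
    (∀ w w', H.Adj w w' → ∃ x ∈ f w, ∃ y ∈ f w', G.Adj x y)

/-- `H` is a minor of `G`. -/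
def IsMinor {W V : Type} (H : SimpleGraph W) (G : SimpleGraph V) : Prop :=
  ∃ f : W → Set V, IsModel H G f

/-- The join `F₁ + F₂`: disjoint union plus all edges between the two parts. -/
def join {A B : Type} (F₁ : SimpleGraph A) (F₂ : SimpleGraph B) : SimpleGraph (A ⊕ B) where
  Adj u v := match u, v with
    | Sum.inl a, Sum.inl a' => F₁.Adj a a'
    | Sum.inr b, Sum.inr b' => F₂.Adj b b'
    | Sum.inl _, Sum.inr _ => True
    | Sum.inr _, Sum.inl _ => True
  symm := ⟨by
    rintro (a | b) (a' | b') h
    · exact F₁.symm.symm _ _ h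
    · trivial
    · trivial
    · exact F₂.symm.symm _ _ h⟩
  loopless := ⟨by
    rintro (a | b) h
    · exact F₁.loopless.irrefl _ h
    · exact F₂.loopless.irrefl _ h⟩

/-- The star `K_{1,m}`: the centre `none` is adjacent to the `m` leaves `some i`. -/
def star (m : ℕ) : SimpleGraph (Option (Fin m)) :=
  SimpleGraph.fromRel (fun a b => a = none ∧ b ≠ none)

end Pool.Agent.W_MP_2d9473_co
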