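import Mathlib
import Pool.Agent.W_MP_2d9473_co.Defs

namespace Pool.Agent.W_MP_2d9473_co

variable {V W : Type}

/-- closure form of connectedness of the vertex set `S` -/
def CSet (G : SimpleGraph V) (S : Set V) : Prop :=
  S.Nonempty ∧ ∀ P ⊆ S, P.Nonempty → (∀ x ∈ P, ∀ y ∈ S, G.Adj x y → y ∈ P) → S ⊆ P

lemma cset_of_connected {G : SimpleGraph V} {S : Set V} (h : (G.induce S).Connected) :
    CSet G S := by
  obtain ⟨x0, hx0⟩ := h.nonempty
  refine ⟨⟨x0, hx0⟩, ?_⟩
  intro P hPS ⟨p, hp⟩ hcl y hy
  have hr : (G.induce S).Reachable ⟨p, hPS hp⟩ ⟨y, hy⟩ := h.preconnected _ _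
  obtain ⟨w⟩ := hr
  have key : ∀ (a b : S), (G.induce S).Walk a b → (a : V) ∈ P → (b : V) ∈ P := by
    intro a b w
    induction w with
    | nil => exact id
    | cons hadj _ ih =>
      intro ha
      exact ih (hcl _ ha _ (Subtype.coe_prop _) hadj)
  exact key _ _ w hp

lemma connected_of_cset {G : SimpleGraph V} {S : Set V} (h : CSet G S) :
    (G.induce S).Connected := by
  obtain ⟨⟨x0, hx0⟩, hcl⟩ := h
  have key : ∀ y (hy : y ∈ S), (G.induce S).Reachable ⟨x0, hx0⟩ ⟨y, hy⟩ := by
    intro y hy
    have hsub : S ⊆ {y | ∃ hy : y ∈ S, (G.induce S).Reachable ⟨x0, hx0⟩ ⟨y, hy⟩} := by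
      apply hcl
      · rintro z ⟨hz, -⟩; exact hz
      · exact ⟨x0, hx0, SimpleGraph.Reachable.refl _⟩
      · rintro x ⟨hx, hxr⟩ z hz hadj
        refine ⟨hz, hxr.trans ?_⟩
        apply SimpleGraph.Adj.reachable
        exact hadj
    exact (hsub hy).2
  have : Nonempty S := ⟨⟨x0, hx0⟩⟩
  refine SimpleGraph.Connected.mk ?_
  intro a b
  exact (key a.1 a.2).symm.trans (key b.1 b.2)

/-- the connected component of `x0` inside `X` -/
def comp (G : SimpleGraph V) (X : Set V) (x0 : V) : Set V :=
  {y | ∀ P : Set V, P ⊆ X → x0 ∈ P → (∀ x ∈ P, ∀ z ∈ X, G.Adj x z → z ∈ P) → y ∈ P}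

lemma comp_subset {G : SimpleGraph V} {X : Set V} {x0 : V} (h0 : x0 ∈ X) : comp G X x0 ⊆ X :=
  fun _ hy => hy X (Set.Subset.refl _) h0 (fun _ _ _ hz _ => hz)

lemma mem_comp_self {G : SimpleGraph V} {X : Set V} {x0 : V} : x0 ∈ comp G X x0 :=
  fun _ _ h _ => h

lemma comp_closed {G : SimpleGraph V} {X : Set V} {x0 : V} {x z : V} (hx : x ∈ comp G X x0)
    (hz : z ∈ X) (h : G.Adj x z) : z ∈ comp G X x0 :=
  fun P hP h0 hcl => hcl x (hx P hP h0 hcl) z hz h

lemma comp_cset {G : SimpleGraph V} {X : Set V} {x0 : V} (h0 : x0 ∈ X) :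
    CSet G (comp G X x0) := by
  refine ⟨⟨x0, mem_comp_self⟩, ?_⟩
  intro P hP ⟨p, hp⟩ hcl y hy
  by_cases hx : x0 ∈ P
  · apply hy P (hP.trans (comp_subset h0)) hx
    intro x hxP z hz hadj
    exact hcl x hxP z (comp_closed (hP hxP) hz hadj) hadj
  · exfalso
    -- the complement of P in the component is closed
    have := hP hp (comp G X x0 \ P) (Set.diff_subset.trans (comp_subset h0)) ⟨mem_comp_self, hx⟩ ?_
    · exact this.2 hp
    · rintro x ⟨hx1, hx2⟩ z hz hadj
      refine ⟨comp_closed hx1 hz hadj, ?_⟩
      intro hzP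
      exact hx2 (hcl z hzP x hx1 hadj.symm)

lemma CSet.union_attached {G : SimpleGraph V} {S T : Set V} (hS : CSet G S)
    (hT : ∀ t ∈ T, ∃ s ∈ S, G.Adj s t) : CSet G (S ∪ T) := by
  obtain ⟨⟨s0, hs0⟩, hcl⟩ := hS
  refine ⟨⟨s0, Or.inl hs0⟩, ?_⟩
  intro P hP ⟨p, hp⟩ hclP
  -- P meets S
  have hmeet : (P ∩ S).Nonempty := by
    rcases hP hp with h | h
    · exact ⟨p, hp, h⟩
    · obtain ⟨s, hs, hadj⟩ := hT p h
      exact ⟨s, hclP p hp s (Or.inl hs) hadj.symm, hs⟩
  have hSP : S ⊆ P ∩ S := by
    apply hcl _ Set.inter_subset_right hmeet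
    rintro x ⟨hx1, hx2⟩ y hy hadj
    exact ⟨hclP x hx1 y (Or.inl hy) hadj, hy⟩
  rintro y (hy | hy)
  · exact (hSP hy).1
  · obtain ⟨s, hs, hadj⟩ := hT y hy
    exact hclP s (hSP hs).1 y (Or.inr hy) hadj

/-- A model of a connected graph is not split by a set without boundary edges. -/
lemma model_dichotomy {H : SimpleGraph W} {G : SimpleGraph V} (hH : H.Connected) {f : W → Set V}
    (hf : IsModel H G f) (P : Set V)
    (hP : ∀ u v, ∀ x ∈ f u, ∀ y ∈ f v, x ∈ P → G.Adj x y → y ∈ P) :
    (∀ w, f w ⊆ P) ∨ (∀ w, Disjoint (f w) P) := by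
  have h1 : ∀ w, f w ⊆ P ∨ Disjoint (f w) P := by
    intro w
    by_cases hd : Disjoint (f w) P
    · exact Or.inr hd
    · left
      rw [Set.not_disjoint_iff] at hd
      obtain ⟨x, hx1, hx2⟩ := hd
      have hc := cset_of_connected (hf.1 w)
      have := hc.2 (f w ∩ P) Set.inter_subset_left ⟨x, hx1, hx2⟩ (by
        rintro a ⟨ha1, ha2⟩ b hb hadj
        exact ⟨hb, hP w w a ha1 b hb ha2 hadj⟩)
      exact fun y hy => (this hy).2
  have hcH : ∀ (a b : W), H.Reachable a b → f a ⊆ P → f b ⊆ P := by
    rintro a b ⟨w⟩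
    induction w with
    | nil => exact id
    | @cons u v w hadj _ ih =>
      intro ha
      apply ih
      obtain ⟨x, hx, y, hy, hxy⟩ := hf.2.2 u v hadj
      rcases h1 v with h | h
      · exact h
      · exfalso
        exact Set.disjoint_left.1 h hy (hP u v x hx y hy (ha hx) hxy)
  obtain ⟨w0⟩ := hH.nonempty
  rcases h1 w0 with h | h
  · left
    intro w
    exact hcH w0 w (hH.preconnected w0 w) h
  · right
    intro w
    rcases h1 w with h2 | h2
    · exfalso
      have h3 := hcH w w0 (hH.preconnected w w0) h2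
      obtain ⟨x0, hx0⟩ := (hf.1 w0).nonempty
      exact Set.disjoint_left.1 h hx0 (h3 hx0)
    · exact h2

/-- A set dominated by two adjacent disjoint connected sets has no `H`-model. -/
lemma no_model_of_dominated {H : SimpleGraph W} {G : SimpleGraph V}
    (hG : ¬ IsMinor (join (star 1) H) G) {R D B : Set V} (hR : CSet G R) (hD : CSet G D)
    (hRD : Disjoint R D) (hRB : Disjoint R B) (hDB : Disjoint D B)
    (hadj : ∃ x ∈ R, ∃ y ∈ D, G.Adj x y)
    (hRdom : ∀ b ∈ B, ∃ x ∈ R, G.Adj x b) (hDdom : ∀ b ∈ B, ∃ x ∈ D, G.Adj x b)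
    {f : W → Set V} (hf : IsModel H G f) (hfB : ∀ w, f w ⊆ B) : False := by
  apply hG
  refine ⟨fun u => match u with
    | Sum.inl none => R
    | Sum.inl (some _) => D
    | Sum.inr w => f w, ?_, ?_, ?_⟩
  · rintro ((_ | _) | w)
    · exact connected_of_cset hR
    · exact connected_of_cset hD
    · exact hf.1 w
  · rintro ((_ | i) | w) ((_ | j) | w') hne
    · exact absurd rfl hne
    · exact hRD
    · exact hRB.mono_right (hfB w')
    · exact hRD.symm
    · exact absurd (by rw [Subsingleton.elim i j]) hne
    · exact hDB.mono_right (hfB w')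
    · exact (hRB.mono_right (hfB w)).symm
    · exact (hDB.mono_right (hfB w)).symm
    · exact hf.2.1 w w' (fun h => hne (by rw [h]))
  · obtain ⟨x, hx, y, hy, hxy⟩ := hadj
    rintro ((_ | i) | w) ((_ | j) | w') h
    · exact absurd h (SimpleGraph.irrefl _)
    · exact ⟨x, hx, y, hy, hxy⟩
    · obtain ⟨z, hz⟩ := (hf.1 w').nonempty
      obtain ⟨a, ha, haz⟩ := hRdom z (hfB w' hz)
      exact ⟨a, ha, z, hz, haz⟩
    · exact ⟨y, hy, x, hx, hxy.symm⟩
    · exfalso
      rw [Subsingleton.elim i j] at h
      exact absurd h (SimpleGraph.irrefl _)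
    · obtain ⟨z, hz⟩ := (hf.1 w').nonempty
      obtain ⟨a, ha, haz⟩ := hDdom z (hfB w' hz)
      exact ⟨a, ha, z, hz, haz⟩
    · obtain ⟨z, hz⟩ := (hf.1 w).nonempty
      obtain ⟨a, ha, haz⟩ := hRdom z (hfB w hz)
      exact ⟨z, hz, a, ha, haz.symm⟩
    · obtain ⟨z, hz⟩ := (hf.1 w).nonempty
      obtain ⟨a, ha, haz⟩ := hDdom z (hfB w hz)
      exact ⟨z, hz, a, ha, haz.symm⟩
    · exact hf.2.2 w w' h

/-- `v` has a neighbour in `R` -/
def nb (G : SimpleGraph V) (R : Set V) (v : V) : Prop := ∃ x ∈ R, G.Adj x v

open Classical in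
/-- number of roots seen by `v` -/
noncomputable def seen (G : SimpleGraph V) (R₁ R₂ : Set V) (v : V) : ℕ :=
  (if nb G R₁ v then 1 else 0) + (if nb G R₂ v then 1 else 0)

/-- conclusion: `C` can be coloured from `L` without monochromatic model -/
def Good (H : SimpleGraph W) (G : SimpleGraph V) (C : Set V) (L : V → Finset ℕ) : Prop :=
  ∃ col : V → ℕ, (∀ v ∈ C, col v ∈ L v) ∧
    ¬ ∃ (c : ℕ) (f : W → Set V), IsModel H G f ∧ (∀ w, f w ⊆ C) ∧ (∀ w, ∀ x ∈ f w, col x = c)

/-- Splitting step: colour `B` with `d`, and the rest consists of two non-adjacent parts. -/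
lemma good_split {H : SimpleGraph W} {G : SimpleGraph V} (hH : H.Connected)
    {C B C₁ C₂ : Set V} {L : V → Finset ℕ} {d : ℕ} (hC : C = B ∪ (C₁ ∪ C₂))
    (hB1 : Disjoint B C₁) (hB2 : Disjoint B C₂) (h12 : Disjoint C₁ C₂)
    (hnadj : ∀ x ∈ C₁, ∀ y ∈ C₂, ¬ G.Adj x y)
    (hd : ∀ v ∈ B, d ∈ L v)
    (hBfree : ∀ f : W → Set V, IsModel H G f → (∀ w, f w ⊆ B) → False)
    (L' : V → Finset ℕ) (hL'sub : ∀ v, L' v ⊆ L v)
    (hL' : ∀ v ∈ C₁ ∪ C₂, nb G B v → d ∉ L' v)
    (h1 : Good H G C₁ L') (h2 : Good H G C₂ L') : Good H G C L := by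
  classical
  obtain ⟨c1, hc1, hm1⟩ := h1
  obtain ⟨c2, hc2, hm2⟩ := h2
  set col : V → ℕ := fun v => if v ∈ B then d else if v ∈ C₁ then c1 v else c2 v with hcol
  have e0 : ∀ v ∈ B, col v = d := fun v hv => by simp [hcol, hv]
  have e1 : ∀ v ∈ C₁, col v = c1 v := fun v hv => by
    have : v ∉ B := fun h => Set.disjoint_left.1 hB1 h hv
    simp [hcol, hv, this]
  have e2 : ∀ v ∈ C₂, col v = c2 v := fun v hv => by
    have h1 : v ∉ B := fun h => Set.disjoint_left.1 hB2 h hv
    have h2 : v ∉ C₁ := fun h => Set.disjoint_left.1 h12 h hv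
    simp [hcol, h1, h2]
  refine ⟨col, ?_, ?_⟩
  · intro v hv
    rw [hC] at hv
    rcases hv with hv | hv | hv
    · rw [e0 v hv]; exact hd v hv
    · rw [e1 v hv]; exact hL'sub v (hc1 v hv)
    · rw [e2 v hv]; exact hL'sub v (hc2 v hv)
  · rintro ⟨c, f, hf, hfC, hmono⟩
    -- colours on the parts avoid `d` next to `B`
    have hne : ∀ y ∈ C₁ ∪ C₂, nb G B y → col y ≠ d := by
      intro y hy hny hyd
      rcases hy with hy | hy
      · rw [e1 y hy] at hyd
        exact hL' y (Or.inl hy) hny (hyd ▸ hc1 y hy)
      · rw [e2 y hy] at hyd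
        exact hL' y (Or.inr hy) hny (hyd ▸ hc2 y hy)
    have hmemC : ∀ w, ∀ x ∈ f w, x ∈ B ∪ (C₁ ∪ C₂) := fun w x hx => hC ▸ hfC w hx
    rcases model_dichotomy hH hf B (by
      intro u v x hx y hy hxB hadj
      rcases hmemC v y hy with h | h
      · exact h
      · exfalso
        apply hne y h ⟨x, hxB, hadj⟩
        rw [hmono v y hy, ← hmono u x hx]
        exact e0 x hxB) with hall | hdis
    · exact hBfree f hf hall
    · have hmem12 : ∀ w, ∀ x ∈ f w, x ∈ C₁ ∪ C₂ := by
        intro w x hx
        rcases hmemC w x hx with h | h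
        · exact absurd h (Set.disjoint_left.1 (hdis w) hx)
        · exact h
      rcases model_dichotomy hH hf C₁ (by
        intro u v x hx y hy hx1 hadj
        rcases hmem12 v y hy with h | h
        · exact h
        · exact absurd hadj (hnadj x hx1 y h)) with hall | hdis2
      · apply hm1
        refine ⟨c, f, hf, hall, ?_⟩
        intro w x hx
        rw [← e1 x (hall w hx)]
        exact hmono w x hx
      · apply hm2
        have hall : ∀ w, f w ⊆ C₂ := by
          intro w x hx
          rcases hmem12 w x hx with h | h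
          · exact absurd h (Set.disjoint_left.1 (hdis2 w) hx)
          · exact h
        refine ⟨c, f, hf, hall, ?_⟩
        intro w x hx
        rw [← e2 x (hall w hx)]
        exact hmono w x hx

lemma good_empty {H : SimpleGraph W} {G : SimpleGraph V} (hH : H.Connected) (L : V → Finset ℕ) :
    Good H G ∅ L := by
  refine ⟨fun _ => 0, by simp, ?_⟩
  rintro ⟨c, f, hf, hfC, -⟩
  obtain ⟨w0⟩ := hH.nonempty
  obtain ⟨x, hx⟩ := (hf.1 w0).nonempty
  exact hfC w0 hx

/-- a single vertex contains no model of a graph with an edge -/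
lemma no_model_singleton {H : SimpleGraph W} {G : SimpleGraph V} (hE : ∃ a b, H.Adj a b) (u : V)
    (f : W → Set V) (hf : IsModel H G f) (hfB : ∀ w, f w ⊆ {u}) : False := by
  obtain ⟨a, b, hab⟩ := hE
  obtain ⟨x, hx⟩ := (hf.1 a).nonempty
  obtain ⟨y, hy⟩ := (hf.1 b).nonempty
  have h1 : x = u := hfB a hx
  have h2 : y = u := hfB b hy
  subst h1
  subst h2
  exact Set.disjoint_left.1 (hf.2.1 a b hab.ne) hx hy

lemma csingle {G : SimpleGraph V} (u : V) : CSet G {u} := by
  refine ⟨⟨u, rfl⟩, ?_⟩
  rintro P hP ⟨p, hp⟩ - y hy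
  have h1 : p = u := hP hp
  have h2 : y = u := hy
  rw [h2, ← h1]; exact hp

/-- The main induction. -/
theorem main_ind {H : SimpleGraph W} {G : SimpleGraph V} [Fintype V] (hH : H.Connected)
    (hE : ∃ a b, H.Adj a b) (hG : ¬ IsMinor (join (star 1) H) G) :
    ∀ (n : ℕ) (C R₁ R₂ : Set V) (L : V → Finset ℕ), C.ncard ≤ n →
      (R₁ = ∅ ∨ CSet G R₁) → (R₂ = ∅ ∨ CSet G R₂) → Disjoint C R₁ → Disjoint C R₂ →
      Disjoint R₁ R₂ → (R₁.Nonempty → R₂.Nonempty → ∃ x ∈ R₁, ∃ y ∈ R₂, G.Adj x y) →
      (∀ v ∈ C, 3 ≤ (L v).card + seen G R₁ R₂ v) → Good H G C L := by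
  classical
  intro n
  induction n with
  | zero =>
    intro C R₁ R₂ L hCn _ _ _ _ _ _ _
    have : C = ∅ := by
      have := Set.toFinite C
      rw [← Set.ncard_eq_zero]; omega
    rw [this]
    exact good_empty hH L
  | succ n ih =>
    intro C R₁ R₂ L hCn hR1 hR2 hC1 hC2 hR12 hadj hL
    have hfin : ∀ S : Set V, S.Finite := fun S => Set.toFinite S
    -- single vertex step
    have single : ∀ (u : V) (d : ℕ) (Q₁ Q₂ : Set V), u ∈ C → d ∈ L u →
        (Q₁ = ∅ ∨ CSet G Q₁) → (Q₂ = ∅ ∨ CSet G Q₂) → Disjoint (C \ {u}) Q₁ →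
        Disjoint (C \ {u}) Q₂ → Disjoint Q₁ Q₂ →
        (Q₁.Nonempty → Q₂.Nonempty → ∃ x ∈ Q₁, ∃ y ∈ Q₂, G.Adj x y) →
        (∀ v ∈ C \ {u}, 3 ≤ (if G.Adj u v then (L v).erase d else L v).card + seen G Q₁ Q₂ v) →
        Good H G C L := by
      intro u d Q₁ Q₂ hu hd hQ1 hQ2 hCQ1 hCQ2 hQ12 hQadj hQL
      have hlt : (C \ {u}).ncard ≤ n := by
        have := Set.ncard_diff_singleton_lt_of_mem hu (hfin C)
        omega
      have hg := ih (C \ {u}) Q₁ Q₂ (fun v => if G.Adj u v then (L v).erase d else L v) hlt
        hQ1 hQ2 hCQ1 hCQ2 hQ12 hQadj hQL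
      refine good_split (B := {u}) (C₁ := C \ {u}) (C₂ := ∅) (d := d) hH ?_ ?_ ?_ ?_ ?_ ?_ ?_
        (fun v => if G.Adj u v then (L v).erase d else L v) ?_ ?_ hg (good_empty hH _)
      · ext v
        simp only [Set.union_empty, Set.singleton_union, Set.insert_diff_singleton]
        rw [Set.insert_eq_of_mem hu]
      · exact Set.disjoint_sdiff_right
      · exact Set.disjoint_empty _
      · exact Set.disjoint_empty _
      · intro x _ y hy; exact absurd hy (Set.notMem_empty y)
      · intro v hv; rw [Set.mem_singleton_iff.1 hv]; exact hd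
      · exact fun f hf hfB => no_model_singleton hE u f hf hfB
      · intro v
        split_ifs
        · exact Finset.erase_subset _ _
        · exact Finset.Subset.refl _
      · rintro v hv ⟨x, hx, hxv⟩
        rw [Set.mem_singleton_iff.1 hx] at hxv
        simp [hxv]
    have card_single : ∀ (u v : V) (d : ℕ), (L v).card ≤
        (if G.Adj u v then (L v).erase d else L v).card + (if nb G {u} v then 1 else 0) := by
      intro u v d
      by_cases h : G.Adj u v
      · have h2 : nb G {u} v := ⟨u, rfl, h⟩
        rw [if_pos h, if_pos h2]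
        have := Finset.pred_card_le_card_erase (s := L v) (a := d)
        omega
      · rw [if_neg h]; omega
    by_cases hCe : C = ∅
    · rw [hCe]; exact good_empty hH L
    obtain ⟨c0, hc0⟩ := Set.nonempty_iff_ne_empty.2 hCe
    by_cases h2 : ∃ v ∈ C, nb G R₂ v
    · by_cases h1 : ∃ v ∈ C, nb G R₁ v
      · -- main case
        obtain ⟨u, huC, hu1⟩ := h1
        obtain ⟨v0, hv0C, hv0⟩ := h2
        have hR1c : CSet G R₁ := by
          rcases hR1 with h | h
          · exfalso; obtain ⟨x, hx, -⟩ := hu1; rw [h] at hx; exact hx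
          · exact h
        have hR2c : CSet G R₂ := by
          rcases hR2 with h | h
          · exfalso; obtain ⟨x, hx, -⟩ := hv0; rw [h] at hx; exact hx
          · exact h
        have hRadj := hadj hR1c.1 hR2c.1
        have hLu : (L u).Nonempty := by
          rw [← Finset.card_pos]
          have := hL u huC
          unfold seen at this
          split_ifs at this <;> omega
        obtain ⟨d, hd⟩ := hLu
        -- the set B
        set T : Set V := {v | v ∈ C ∧ nb G R₁ v ∧ d ∈ L v} with hT
        have huT : u ∈ T := ⟨huC, hu1, hd⟩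
        set B := comp G T u with hB
        have hBT : B ⊆ T := comp_subset huT
        have huB : u ∈ B := mem_comp_self
        -- the set D
        obtain ⟨r0, hr0⟩ := hR2c.1
        set X : Set V := (C ∪ R₂) \ B with hX
        have hR2B : Disjoint R₂ B := by
          rw [Set.disjoint_left]
          intro x hx hxB
          exact Set.disjoint_left.1 hC2 (hBT hxB).1 hx
        have hR2X : R₂ ⊆ X := fun x hx => ⟨Or.inr hx, fun h => Set.disjoint_left.1 hR2B hx h⟩
        set D := comp G X r0 with hD
        have hr0X : r0 ∈ X := hR2X hr0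
        have hDX : D ⊆ X := comp_subset hr0X
        have hDc : CSet G D := comp_cset hr0X
        have hR2D : R₂ ⊆ D := by
          have := hR2c.2 (R₂ ∩ D) Set.inter_subset_left ⟨r0, hr0, mem_comp_self⟩ (by
            rintro x ⟨hx1, hx2⟩ y hy hxy
            exact ⟨hy, comp_closed hx2 (hR2X hy) hxy⟩)
          exact fun x hx => (this hx).2
        have hDB : Disjoint D B := by
          rw [Set.disjoint_left]; exact fun x hx => (hDX hx).2
        have hR1D : Disjoint R₁ D := by
          rw [Set.disjoint_left]
          intro x hx hxD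
          rcases (hDX hxD).1 with h | h
          · exact Set.disjoint_left.1 hC1 h hx
          · exact Set.disjoint_left.1 hR12 hx h
        -- B₀
        set B0 : Set V := {v | v ∈ B ∧ nb G D v} with hB0
        have hB0B : B0 ⊆ B := fun v hv => hv.1
        have hB0C : B0 ⊆ C := fun v hv => (hBT hv.1).1
        set C1 : Set V := D ∩ C with hC1def
        set C2 : Set V := C \ (D ∪ B0) with hC2def
        set L' : V → Finset ℕ := fun v => if nb G B0 v then (L v).erase d else L v with hL'def
        have hcardL' : ∀ v, (L v).card ≤ (L' v).card + (if nb G B0 v then 1 else 0) := by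
          intro v
          simp only [hL'def]
          split_ifs with h
          · have := Finset.pred_card_le_card_erase (s := L v) (a := d)
            omega
          · omega
        have hR1C : Disjoint C R₁ := hC1
        -- decomposition
        have hdec : C = B0 ∪ (C1 ∪ C2) := by
          ext v
          simp only [hC1def, hC2def, Set.mem_union, Set.mem_inter_iff, Set.mem_diff]
          constructor
          · intro hv
            by_cases h1 : v ∈ D
            · right; left; exact ⟨h1, hv⟩
            · by_cases h2 : v ∈ B0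
              · left; exact h2
              · right; right; exact ⟨hv, by tauto⟩
          · rintro (h | h | h)
            · exact hB0C h
            · exact h.2
            · exact h.1
        have hnadj : ∀ x ∈ C1, ∀ y ∈ C2, ¬ G.Adj x y := by
          rintro x ⟨hxD, hxC⟩ y ⟨hyC, hyn⟩ hxy
          have hyD : y ∉ D := fun h => hyn (Or.inl h)
          have hyB0 : y ∉ B0 := fun h => hyn (Or.inr h)
          by_cases hyB : y ∈ B
          · exact hyB0 ⟨hyB, x, hxD, hxy⟩
          · exact hyD (comp_closed hxD ⟨Or.inl hyC, hyB⟩ hxy)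
        -- IH on C1
        have g1 : Good H G C1 L' := by
          have hlt : C1.ncard ≤ n := by
            have : C1.ncard < C.ncard := by
              apply Set.ncard_lt_ncard _ (hfin C)
              refine ⟨Set.inter_subset_right, fun h => ?_⟩
              exact Set.disjoint_left.1 hDB (h huC).1 huB
            omega
          apply ih C1 (R₁ ∪ B0) R₂ L' hlt
          · right
            exact hR1c.union_attached (fun t ht => (hBT ht.1).2.1)
          · right; exact hR2c
          · rw [Set.disjoint_union_right]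
            refine ⟨hC1.mono_left Set.inter_subset_right, ?_⟩
            exact (hDB.mono_right hB0B).mono_left Set.inter_subset_left
          · exact hC2.mono_left Set.inter_subset_right
          · rw [Set.disjoint_union_left]
            refine ⟨hR12, ?_⟩
            exact (hR2B.mono_right hB0B).symm
          · intro _ _
            obtain ⟨x, hx, y, hy, hxy⟩ := hRadj
            exact ⟨x, Or.inl hx, y, hy, hxy⟩
          · rintro v ⟨hvD, hvC⟩
            have hv := hL v hvC
            have hc := hcardL' v
            have hmono : nb G R₁ v → nb G (R₁ ∪ B0) v := by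
              rintro ⟨x, hx, hxv⟩; exact ⟨x, Or.inl hx, hxv⟩
            have hmono2 : nb G B0 v → nb G (R₁ ∪ B0) v := by
              rintro ⟨x, hx, hxv⟩; exact ⟨x, Or.inr hx, hxv⟩
            by_cases hn1 : nb G R₁ v
            · -- no loss
              have hnoloss : nb G B0 v → d ∉ L v := by
                rintro ⟨x, hx, hxv⟩ hdv
                have : v ∈ B := comp_closed hx.1 ⟨hvC, hn1, hdv⟩ hxv
                exact Set.disjoint_left.1 hDB hvD this
              have hLL : L' v = L v := by
                simp only [hL'def]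
                split_ifs with h
                · exact Finset.erase_eq_of_notMem (hnoloss h)
                · rfl
              rw [hLL]
              unfold seen at hv ⊢
              rw [if_pos hn1] at hv
              rw [if_pos (hmono hn1)]
              exact hv
            · unfold seen at hv ⊢
              rw [if_neg hn1] at hv
              by_cases hnB : nb G B0 v
              · rw [if_pos (hmono2 hnB)]
                rw [if_pos hnB] at hc
                omega
              · rw [if_neg hnB] at hc
                omega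
        -- IH on C2
        have g2 : Good H G C2 L' := by
          have hlt : C2.ncard ≤ n := by
            have : C2.ncard < C.ncard := by
              apply Set.ncard_lt_ncard _ (hfin C)
              refine ⟨Set.diff_subset, fun h => ?_⟩
              -- v0 is in D or B0
              have hv0' : v0 ∈ D ∪ B0 := by
                obtain ⟨x, hx, hxv⟩ := hv0
                by_cases hvB : v0 ∈ B
                · right; exact ⟨hvB, x, hR2D hx, hxv⟩
                · left; exact comp_closed (hR2D hx) ⟨Or.inl hv0C, hvB⟩ hxv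
              exact (h hv0C).2 hv0'
            omega
          apply ih C2 R₁ (D ∪ B0) L' hlt
          · right; exact hR1c
          · right
            exact hDc.union_attached (fun t ht => ht.2)
          · exact hC1.mono_left Set.diff_subset
          · exact Set.disjoint_sdiff_left
          · rw [Set.disjoint_union_right]
            exact ⟨hR1D, (hC1.mono_left hB0C).symm⟩
          · intro _ _
            obtain ⟨x, hx, y, hy, hxy⟩ := hRadj
            exact ⟨x, hx, y, Or.inl (hR2D hy), hxy⟩
          · rintro v ⟨hvC, hvn⟩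
            have hv := hL v hvC
            have hc := hcardL' v
            -- v is not adjacent to R₂
            have hnR2 : ¬ nb G R₂ v := by
              rintro ⟨x, hx, hxv⟩
              by_cases hvB : v ∈ B
              · exact hvn (Or.inr ⟨hvB, x, hR2D hx, hxv⟩)
              · exact hvn (Or.inl (comp_closed (hR2D hx) ⟨Or.inl hvC, hvB⟩ hxv))
            unfold seen at hv ⊢
            rw [if_neg hnR2] at hv
            have hmono2 : nb G B0 v → nb G (D ∪ B0) v := by
              rintro ⟨x, hx, hxv⟩; exact ⟨x, Or.inr hx, hxv⟩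
            by_cases hnB : nb G B0 v
            · rw [if_pos (hmono2 hnB)]
              rw [if_pos hnB] at hc
              omega
            · rw [if_neg hnB] at hc
              omega
        refine good_split (B := B0) (C₁ := C1) (C₂ := C2) (d := d) hH hdec ?_ ?_ ?_ hnadj ?_ ?_
          L' ?_ ?_ g1 g2
        · exact ((hDB.mono_right hB0B).mono_left Set.inter_subset_left).symm
        · rw [Set.disjoint_left]; exact fun x hx h => h.2 (Or.inr hx)
        · rw [Set.disjoint_left]; exact fun x hx h => h.2 (Or.inl hx.1)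
        · intro v hv; exact (hBT hv.1).2.2
        · intro f hf hfB
          apply no_model_of_dominated hG hR1c hDc hR1D _ (hDB.mono_right hB0B) _ _ _ hf hfB
          · exact (hC1.mono_left hB0C).symm
          · obtain ⟨x, hx, y, hy, hxy⟩ := hRadj
            exact ⟨x, hx, y, hR2D hy, hxy⟩
          · intro b hb; exact (hBT hb.1).2.1
          · intro b hb; exact hb.2
        · intro v
          simp only [hL'def]
          split_ifs
          · exact Finset.erase_subset _ _
          · exact Finset.Subset.refl _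
        · intro v _ hnB
          simp [hL'def, hnB]
      · -- R₁ not adjacent to C
        push Not at h1
        obtain ⟨v0, hv0C, hv0⟩ := h2
        have hR2c : CSet G R₂ := by
          rcases hR2 with h | h
          · exfalso; obtain ⟨x, hx, -⟩ := hv0; rw [h] at hx; exact hx
          · exact h
        obtain ⟨d, hd⟩ : (L v0).Nonempty := by
          rw [← Finset.card_pos]
          have := hL v0 hv0C
          unfold seen at this
          split_ifs at this <;> omega
        apply single v0 d R₂ {v0} hv0C hd hR2 (Or.inr (csingle v0))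
        · exact hC2.mono_left Set.diff_subset
        · exact Set.disjoint_sdiff_left
        · rw [Set.disjoint_singleton_right]
          exact fun h => Set.disjoint_left.1 hC2 hv0C h
        · intro _ _
          obtain ⟨x, hx, hxv⟩ := hv0
          exact ⟨x, hx, v0, rfl, hxv⟩
        · rintro v ⟨hvC, -⟩
          have h3 := hL v hvC
          have h4 := card_single v0 v d
          unfold seen at h3 ⊢
          rw [if_neg (h1 v hvC)] at h3
          omega
    · push Not at h2
      by_cases h1 : ∃ v ∈ C, nb G R₁ v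
      · obtain ⟨v0, hv0C, hv0⟩ := h1
        obtain ⟨d, hd⟩ : (L v0).Nonempty := by
          rw [← Finset.card_pos]
          have := hL v0 hv0C
          unfold seen at this
          split_ifs at this <;> omega
        apply single v0 d R₁ {v0} hv0C hd hR1 (Or.inr (csingle v0))
        · exact hC1.mono_left Set.diff_subset
        · exact Set.disjoint_sdiff_left
        · rw [Set.disjoint_singleton_right]
          exact fun h => Set.disjoint_left.1 hC1 hv0C h
        · intro _ _
          obtain ⟨x, hx, hxv⟩ := hv0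
          exact ⟨x, hx, v0, rfl, hxv⟩
        · rintro v ⟨hvC, -⟩
          have h3 := hL v hvC
          have h4 := card_single v0 v d
          unfold seen at h3 ⊢
          rw [if_neg (h2 v hvC)] at h3
          omega
      · push Not at h1
        obtain ⟨d, hd⟩ : (L c0).Nonempty := by
          rw [← Finset.card_pos]
          have := hL c0 hc0
          unfold seen at this
          split_ifs at this <;> omega
        apply single c0 d {c0} ∅ hc0 hd (Or.inr (csingle c0)) (Or.inl rfl)
        · exact Set.disjoint_sdiff_left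
        · exact Set.disjoint_empty _
        · exact Set.disjoint_empty _
        · intro _ h; exact absurd h Set.not_nonempty_empty
        · rintro v ⟨hvC, -⟩
          have h3 := hL v hvC
          have h4 := card_single c0 v d
          unfold seen at h3 ⊢
          rw [if_neg (h1 v hvC), if_neg (h2 v hvC)] at h3
          omega

end Pool.Agent.W_MP_2d9473_co
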